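import Pool.Agent.V11258.TC.Comb
import Pool.Agent.Helper743.Ideal

set_option autoImplicit false

/-! A telograph-cototal degree that is not `n`-cylinder-cototal for any `n`. -/

namespace Pool.Agent.Results.MP_2b9a36_lc.TelographNotCylinder

open Nat.Partrec (Code)
open Set Filter Topology Pool.Agent.V11258.TC

/-- The finite set with canonical index `e`: the members of the list coded by `e`. -/
def D (e : ℕ) : Set ℕ := {x | x ∈ Denumerable.ofNat (List ℕ) e}

/-- Enumeration reducibility. -/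
def ERed (A B : Set ℕ) : Prop :=
  ∃ Φ : Set ℕ, REPred (fun n => n ∈ Φ) ∧ ∀ n, n ∈ A ↔ ∃ e, Nat.pair n e ∈ Φ ∧ D e ⊆ B

/-- Equivalence under enumeration reducibility, i.e. having the same e-degree. -/
def EEquiv (A B : Set ℕ) : Prop := ERed A B ∧ ERed B A

/-- The join of two sets. -/
def join (A B : Set ℕ) : Set ℕ := {n | (∃ m ∈ A, n = 2 * m) ∨ ∃ m ∈ B, n = 2 * m + 1}

/-- The graph of `g`. -/
def Graph (g : ℕ → ℕ) : Set ℕ := {z | g z.unpair.1 = z.unpair.2}

/-- The part of the graph of `g` with values at least `b`. -/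
def TGraph (b : ℕ) (g : ℕ → ℕ) : Set ℕ := {z | g z.unpair.1 = z.unpair.2 ∧ b ≤ z.unpair.2}

/-- The cylinder graph: the codes of the strings that are initial segments of `g`. -/
def CGraph (g : ℕ → ℕ) : Set ℕ :=
  {s | ∀ (i : ℕ) (h : i < (Denumerable.ofNat (List ℕ) s).length),
    (Denumerable.ofNat (List ℕ) s)[i] = g i}

/-- The e-degree of `A` is telograph-cototal. -/
def TelographCototal (A : Set ℕ) : Prop :=
  ∃ (g : ℕ → ℕ) (b : ℕ), EEquiv A (join (Graph g)ᶜ (TGraph b g))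

/-- The uniform join of the complements of the cylinder graphs of `f 0, …, f (n-1)`. -/
def cylJoin (n : ℕ) (f : ℕ → ℕ → ℕ) : Set ℕ :=
  {z | z.unpair.1 < n ∧ z.unpair.2 ∈ (CGraph (f z.unpair.1))ᶜ}

/-- The e-degree of `A` is the join of `n` cylinder-cototal e-degrees. -/
def CylinderCototal (n : ℕ) (A : Set ℕ) : Prop :=
  ∃ f : ℕ → ℕ → ℕ, EEquiv A (cylJoin n f)

/-! ### operators -/

/-- the result of an enumeration operator -/
def op (Φ B : Set ℕ) : Set ℕ := {n | ∃ e, Nat.pair n e ∈ Φ ∧ D e ⊆ B}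

/-- the telograph set -/
def T (g : ℕ → ℕ) : Set ℕ := join (Graph g)ᶜ (TGraph 2 g)

/-- the domain of a code -/
def W (c : Code) : Set ℕ := {n | (c.eval n).Dom}

theorem finite_D (e : ℕ) : (D e).Finite := by
  unfold D
  exact List.finite_toSet _

/-- the first component of an element is less than `n`, the strings left over form a chain, and
the second operator gives back the telograph set -/
def SS (n : ℕ) (Φ Ψ : Set ℕ) : Set (ℕ → ℕ) :=
  {g | (∀ i, i < n → ∀ s t, Nat.pair i s ∉ op Φ (T g) → Nat.pair i t ∉ op Φ (T g) →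
      lst s <+: lst t ∨ lst t <+: lst s) ∧
    (∀ i, i < n → ∀ s t, lst t <+: lst s → Nat.pair i s ∉ op Φ (T g) →
      Nat.pair i t ∉ op Φ (T g)) ∧
    (∀ z, z ∈ op Φ (T g) → z.unpair.1 < n) ∧
    (∀ z, z ∈ op Ψ (op Φ (T g)) ↔ z ∈ T g)}

theorem mem_T_iff (g : ℕ → ℕ) (x : ℕ) : x ∈ T g ↔
    (∃ m, g m.unpair.1 ≠ m.unpair.2 ∧ x = 2 * m) ∨
      ∃ m, (g m.unpair.1 = m.unpair.2 ∧ 2 ≤ m.unpair.2) ∧ x = 2 * m + 1 := Iff.rfl

theorem clopen_coord (k : ℕ) (P : ℕ → Prop) : IsClopen {g : ℕ → ℕ | P (g k)} :=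
  (isClopen_discrete {v | P v}).preimage (continuous_apply (A := fun _ : ℕ => ℕ) k)

theorem open_T (x : ℕ) : IsOpen {g : ℕ → ℕ | x ∈ T g} := by
  have : {g : ℕ → ℕ | x ∈ T g} = (⋃ m, {g | g m.unpair.1 ≠ m.unpair.2 ∧ x = 2 * m}) ∪
      ⋃ m, {g | (g m.unpair.1 = m.unpair.2 ∧ 2 ≤ m.unpair.2) ∧ x = 2 * m + 1} := by
    ext g
    simp only [mem_union, mem_iUnion, Set.mem_ofPred_eq]
    exact mem_T_iff g x
  rw [this]
  refine IsOpen.union (isOpen_iUnion fun m => ?_) (isOpen_iUnion fun m => ?_)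
  · exact (clopen_coord m.unpair.1 (fun v => v ≠ m.unpair.2 ∧ x = 2 * m)).isOpen
  · exact (clopen_coord m.unpair.1
      (fun v => (v = m.unpair.2 ∧ 2 ≤ m.unpair.2) ∧ x = 2 * m + 1)).isOpen

theorem bm_const (p : Prop) : BaireMeasurableSet {_g : ℕ → ℕ | p} := by
  by_cases hp : p
  · have : {_g : ℕ → ℕ | p} = univ := by ext; simp [hp]
    rw [this]; exact isOpen_univ.baireMeasurableSet
  · have : {_g : ℕ → ℕ | p} = ∅ := by ext; simp [hp]
    rw [this]; exact isOpen_empty.baireMeasurableSet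

theorem bm_sub {F : (ℕ → ℕ) → Set ℕ} (hF : ∀ x, BaireMeasurableSet {g | x ∈ F g}) (e : ℕ) :
    BaireMeasurableSet {g | D e ⊆ F g} := by
  have : {g : ℕ → ℕ | D e ⊆ F g} = ⋂ x ∈ D e, {g | x ∈ F g} := by
    ext g
    simp only [mem_iInter, Set.mem_ofPred_eq]
    exact Iff.rfl
  rw [this]
  exact BaireMeasurableSet.biInter (finite_D e).countable fun x _ => hF x

theorem bm_op {F : (ℕ → ℕ) → Set ℕ} (hF : ∀ x, BaireMeasurableSet {g | x ∈ F g}) (Φ : Set ℕ)
    (x : ℕ) : BaireMeasurableSet {g | x ∈ op Φ (F g)} := by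
  have : {g : ℕ → ℕ | x ∈ op Φ (F g)} = ⋃ e, ({_g : ℕ → ℕ | Nat.pair x e ∈ Φ} ∩ {g | D e ⊆ F g}) := by
    ext g
    simp only [mem_iUnion, mem_inter_iff, Set.mem_ofPred_eq]
    exact Iff.rfl
  rw [this]
  exact BaireMeasurableSet.iUnion fun e => (bm_const _).inter (bm_sub hF e)

theorem bm_imp {p q : (ℕ → ℕ) → Prop} (hp : BaireMeasurableSet {g | p g})
    (hq : BaireMeasurableSet {g | q g}) : BaireMeasurableSet {g | p g → q g} := by
  have : {g | p g → q g} = {g | p g}ᶜ ∪ {g | q g} := by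
    ext g
    simp only [mem_union, mem_compl_iff, Set.mem_ofPred_eq]
    tauto
  rw [this]
  exact hp.compl.union hq

theorem bm_not {p : (ℕ → ℕ) → Prop} (hp : BaireMeasurableSet {g | p g}) :
    BaireMeasurableSet {g | ¬ p g} := hp.compl

theorem bm_and {p q : (ℕ → ℕ) → Prop} (hp : BaireMeasurableSet {g | p g})
    (hq : BaireMeasurableSet {g | q g}) : BaireMeasurableSet {g | p g ∧ q g} := hp.inter hq

theorem bm_all {ι : Type} [Countable ι] {p : ι → (ℕ → ℕ) → Prop}
    (hp : ∀ i, BaireMeasurableSet {g | p i g}) : BaireMeasurableSet {g | ∀ i, p i g} := by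
  have : {g | ∀ i, p i g} = ⋂ i, {g | p i g} := by
    ext g
    simp only [mem_iInter, Set.mem_ofPred_eq]
  rw [this]
  exact BaireMeasurableSet.iInter hp

theorem bm_SS (n : ℕ) (Φ Ψ : Set ℕ) : BaireMeasurableSet (SS n Φ Ψ) := by
  have hT : ∀ x, BaireMeasurableSet {g : ℕ → ℕ | x ∈ T g} := fun x => (open_T x).baireMeasurableSet
  have h1 : ∀ x, BaireMeasurableSet {g : ℕ → ℕ | x ∈ op Φ (T g)} := bm_op hT Φ
  have h2 : ∀ x, BaireMeasurableSet {g : ℕ → ℕ | x ∈ op Ψ (op Φ (T g))} := bm_op h1 Ψ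
  refine bm_and ?_ (bm_and ?_ (bm_and ?_ ?_))
  · exact bm_all fun i => bm_imp (bm_const _) (bm_all fun s => bm_all fun t =>
      bm_imp (bm_not (h1 _)) (bm_imp (bm_not (h1 _)) (bm_const _)))
  · exact bm_all fun i => bm_imp (bm_const _) (bm_all fun s => bm_all fun t =>
      bm_imp (bm_const _) (bm_imp (bm_not (h1 _)) (bm_not (h1 _))))
  · exact bm_all fun z => bm_imp (h1 _) (bm_const _)
  · refine bm_all fun z => ?_
    have : {g : ℕ → ℕ | z ∈ op Ψ (op Φ (T g)) ↔ z ∈ T g} =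
        {g | (z ∈ op Ψ (op Φ (T g)) → z ∈ T g) ∧ (z ∈ T g → z ∈ op Ψ (op Φ (T g)))} := by
      ext g
      simp only [Set.mem_ofPred_eq]
      exact ⟨fun h => ⟨h.1, h.2⟩, fun h => ⟨h.1, h.2⟩⟩
    rw [this]
    exact bm_and (bm_imp (h2 _) (hT _)) (bm_imp (hT _) (h2 _))

/-! ### changing a window -/

/-- change the values on the window `[L, L + N)` -/
def wd (L N : ℕ) (a : ℕ → ℕ) (g : ℕ → ℕ) (x : ℕ) : ℕ := if L ≤ x ∧ x < L + N then a (x - L) else g x

theorem wd_cont (L N : ℕ) (a : ℕ → ℕ) : Continuous (wd L N a) := by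
  refine continuous_pi fun x => ?_
  by_cases h : L ≤ x ∧ x < L + N
  · have : (fun g => wd L N a g x) = fun _ => a (x - L) := by
      funext g; unfold wd; rw [if_pos h]
    rw [this]; exact continuous_const
  · have : (fun g => wd L N a g x) = fun g => g x := by
      funext g; unfold wd; rw [if_neg h]
    rw [this]; exact continuous_apply x

theorem wd_open (L N : ℕ) (a : ℕ → ℕ) : IsOpenMap (wd L N a) := by
  intro U hU
  rw [isOpen_iff_forall_mem_open]
  rintro _ ⟨g, hg, rfl⟩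
  obtain ⟨I, u, h1, h2⟩ := isOpen_pi_iff.1 hU g hg
  refine ⟨(⋂ x ∈ I, {g' : ℕ → ℕ | g' x = wd L N a g x}) ∩
    (⋂ x ∈ Finset.range (L + N), {g' : ℕ → ℕ | g' x = wd L N a g x}), ?_, ?_, ?_⟩
  · intro g' hg'
    simp only [mem_inter_iff, mem_iInter, Set.mem_ofPred_eq, Finset.mem_range] at hg'
    refine ⟨fun x => if L ≤ x ∧ x < L + N then g x else g' x, ?_, ?_⟩
    · refine h2 ?_
      intro x hx
      by_cases h : L ≤ x ∧ x < L + N
      · simp only [h, and_self, if_true]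
        exact (h1 x hx).2
      · have e1 := hg'.1 x hx
        unfold wd at e1
        rw [if_neg h] at e1
        show (if L ≤ x ∧ x < L + N then g x else g' x) ∈ u x
        rw [if_neg h, e1]
        exact (h1 x hx).2
    · funext x
      unfold wd
      by_cases h : L ≤ x ∧ x < L + N
      · rw [if_pos h]
        have e1 := hg'.2 x h.2
        unfold wd at e1
        rw [if_pos h] at e1
        exact e1.symm
      · rw [if_neg h]
        exact if_neg h
  · refine IsOpen.inter (isOpen_biInter_finset fun x _ => ?_) (isOpen_biInter_finset fun y _ => ?_)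
    · exact (clopen_coord x (fun v => v = wd L N a g x)).isOpen
    · exact (clopen_coord y (fun v => v = wd L N a g y)).isOpen
  · simp

theorem isOpen_cyl (g0 : ℕ → ℕ) (L : ℕ) : IsOpen {g : ℕ → ℕ | ∀ x < L, g x = g0 x} := by
  have : {g : ℕ → ℕ | ∀ x < L, g x = g0 x} = ⋂ x ∈ Finset.range L, {g | g x = g0 x} := by
    ext g; simp
  rw [this]
  exact isOpen_biInter_finset fun x _ => (clopen_coord x (fun v => v = g0 x)).isOpen

/-- a set of the countable cover contains all variants on a window of some function -/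
theorem exists_variants {ι : Type} [Countable ι] (U : ι → Set (ℕ → ℕ))
    (hU : ∀ i, BaireMeasurableSet (U i)) (hcov : ∀ g, ∃ i, g ∈ U i) :
    ∃ i, ∃ L, ∀ N, ∃ r, ∀ a : ℕ → ℕ, (∀ x, N ≤ x → a x = 0) → wd L N a r ∈ U i := by
  have hB : BaireSpace (ℕ → ℕ) := by
    let := TopologicalSpace.upgradeIsCompletelyMetrizable (ℕ → ℕ)
    infer_instance
  choose u hu1 hu2 using fun i => (hU i).residualEq_isOpen
  have hne : ∃ i, (u i).Nonempty := by
    by_contra hcon
    push Not at hcon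
    have h1 : ∀ i, (U i)ᶜ ∈ residual (ℕ → ℕ) := by
      intro i
      have h2 := hu2 i
      rw [hcon i] at h2
      filter_upwards [h2] with g hg
      intro hgU
      have : (∅ : Set (ℕ → ℕ)) g := by
        rw [← hg]; exact hgU
      exact this
    have h2 : ⋂ i, (U i)ᶜ ∈ residual (ℕ → ℕ) := countable_iInter_mem.2 h1
    obtain ⟨g, hg⟩ := (dense_of_mem_residual h2).nonempty
    rw [mem_iInter] at hg
    obtain ⟨i, hi⟩ := hcov g
    exact hg i hi
  obtain ⟨i, g0, hg0⟩ := hne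
  obtain ⟨I, v, h1, h2⟩ := isOpen_pi_iff.1 (hu1 i) g0 hg0
  let L : ℕ := I.sup id + 1
  have hL : {g : ℕ → ℕ | ∀ x < L, g x = g0 x} ⊆ u i := by
    intro g hg
    refine h2 ?_
    intro x hx
    have hxL : x < L := Nat.lt_succ_of_le (Finset.le_sup (f := id) hx)
    rw [hg x hxL]
    exact (h1 x hx).2
  refine ⟨i, L, fun N => ?_⟩
  -- the windows functions with support in `[0, N)` are countably many
  have hcount : Countable (Fin N → ℕ) := inferInstance
  let ex : (Fin N → ℕ) → (ℕ → ℕ) := fun b x => if h : x < N then b ⟨x, h⟩ else 0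
  have h3 : ∀ b : Fin N → ℕ, {g : ℕ → ℕ | wd L N (ex b) g ∈ U i ↔ wd L N (ex b) g ∈ u i} ∈
      residual (ℕ → ℕ) := by
    intro b
    have h4 : {g : ℕ → ℕ | g ∈ U i ↔ g ∈ u i} ∈ residual (ℕ → ℕ) := by
      filter_upwards [hu2 i] with g hg
      exact iff_of_eq hg
    exact tendsto_residual_of_isOpenMap (wd_cont L N (ex b)) (wd_open L N (ex b)) h4
  have h4 : ⋂ b, {g : ℕ → ℕ | wd L N (ex b) g ∈ U i ↔ wd L N (ex b) g ∈ u i} ∈
      residual (ℕ → ℕ) := countable_iInter_mem.2 h3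
  obtain ⟨r, hr1, hr2⟩ := (dense_of_mem_residual h4).inter_open_nonempty _ (isOpen_cyl g0 L)
    ⟨g0, fun _ _ => rfl⟩
  refine ⟨r, fun a ha => ?_⟩
  rw [mem_iInter] at hr2
  have h5 : ex (fun x => a x) = a := by
    funext x
    simp only [ex]
    split_ifs with h
    · rfl
    · exact (ha x (not_lt.1 h)).symm
  have h6 := hr2 (fun x => a x)
  rw [Set.mem_ofPred_eq, h5] at h6
  refine h6.2 (hL ?_)
  intro x hx
  unfold wd
  rw [if_neg (by omega)]
  exact hr1 x hx

/-! ### the argument on one window -/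

/-- the corner `b` with the entries below `N` -/
def cor (N : ℕ) (b : Fin N → Bool) (x : ℕ) : ℕ := if h : x < N then (if b ⟨x, h⟩ then 1 else 0) else 0

/-- all entries are `m` except the `j`-th entry -/
def far (N : ℕ) (j : ℕ) (v m : ℕ) (x : ℕ) : ℕ := if x < N then (if x = j then v else m) else 0

theorem wd_in {L N : ℕ} {a r : ℕ → ℕ} {x : ℕ} (h : L ≤ x ∧ x < L + N) : wd L N a r x = a (x - L) :=
  if_pos h
theorem wd_out {L N : ℕ} {a r : ℕ → ℕ} {x : ℕ} (h : ¬ (L ≤ x ∧ x < L + N)) : wd L N a r x = r x :=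
  if_neg h

/-- closedness -/
theorem ev_T {L N : ℕ} {r : ℕ → ℕ} {b : Fin N → Bool} {j : Fin N} {v : ℕ}
    (hv : v = if b j then 1 else 0) {x : ℕ} (hx : x ∈ T (wd L N (cor N b) r)) :
    ∀ᶠ m in atTop, x ∈ T (wd L N (far N j v m) r) := by
  rw [mem_T_iff] at hx
  rcases hx with ⟨z, hz, rfl⟩ | ⟨z, ⟨hz, hz2⟩, rfl⟩
  · filter_upwards [eventually_gt_atTop z.unpair.2] with m hm
    rw [mem_T_iff]
    refine Or.inl ⟨z, ?_, rfl⟩
    by_cases h : L ≤ z.unpair.1 ∧ z.unpair.1 < L + N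
    · rw [wd_in h] at hz ⊢
      have hlt : z.unpair.1 - L < N := by omega
      unfold far
      rw [if_pos hlt]
      by_cases hj : z.unpair.1 - L = j
      · rw [if_pos hj]
        unfold cor at hz
        rw [dif_pos hlt] at hz
        have : (⟨z.unpair.1 - L, hlt⟩ : Fin N) = j := Fin.ext hj
        rw [this, ← hv] at hz
        exact hz
      · rw [if_neg hj]
        exact (ne_of_lt hm).symm
    · rw [wd_out h] at hz ⊢
      exact hz
  · by_cases h : L ≤ z.unpair.1 ∧ z.unpair.1 < L + N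
    · exfalso
      rw [wd_in h] at hz
      unfold cor at hz
      split_ifs at hz <;> omega
    · refine Eventually.of_forall fun m => ?_
      rw [mem_T_iff]
      refine Or.inr ⟨z, ⟨?_, hz2⟩, rfl⟩
      rw [wd_out h] at hz ⊢
      exact hz

theorem ev_op {L N : ℕ} {r : ℕ → ℕ} {b : Fin N → Bool} {j : Fin N} {v : ℕ}
    (hv : v = if b j then 1 else 0) {Φ : Set ℕ} {y : ℕ}
    (hy : y ∈ op Φ (T (wd L N (cor N b) r))) :
    ∀ᶠ m in atTop, y ∈ op Φ (T (wd L N (far N j v m) r)) := by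
  obtain ⟨e, he, hD⟩ := hy
  have h1 : ∀ᶠ m in atTop, ∀ x ∈ D e, x ∈ T (wd L N (far N j v m) r) :=
    (eventually_all_finite (finite_D e)).2 fun x hx => ev_T hv (hD hx)
  filter_upwards [h1] with m hm
  exact ⟨e, he, hm⟩

theorem window {n K L : ℕ} {Φ Ψ : Set ℕ} (hK : n < 2 ^ K) (hK2 : 2 ≤ K) (hn : 1 ≤ n) {r : ℕ → ℕ}
    (hr : ∀ a : ℕ → ℕ, (∀ x, n * K ≤ x → a x = 0) → wd L (n * K) a r ∈ SS n Φ Ψ) : False := by
  let N : ℕ := n * K
  have hcor : ∀ c : Fin N → Bool, ∀ x, N ≤ x → cor N c x = 0 := by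
    intro c x hx
    unfold cor
    rw [dif_neg (not_lt.2 hx)]
  have hfar : ∀ j v m x, N ≤ x → far N j v m x = 0 := by
    intro j v m x hx
    unfold far
    rw [if_neg (not_lt.2 hx)]
  refine comb (N := N) rfl hK hK2 hn
    (fun i c => {s | Nat.pair i s ∈ op Φ (T (wd L N (cor N c) r))}) ?_ ?_ ?_
  · intro i c s t hs ht
    exact (hr (cor N c) (hcor c)).1 i i.2 s t hs ht
  · intro i c s t hst hs
    exact (hr (cor N c) (hcor c)).2.1 i i.2 s t hst hs
  · intro c j
    by_contra hcon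
    push Not at hcon
    let v : ℕ := if c j then 0 else 1
    have hjN : (j : ℕ) < N := j.2
    have hwin : L ≤ L + (j : ℕ) ∧ L + (j : ℕ) < L + N := ⟨by omega, by omega⟩
    let x0 : ℕ := 2 * Nat.pair (L + j) v
    have hx0 : x0 ∈ T (wd L N (cor N c) r) := by
      rw [mem_T_iff]
      refine Or.inl ⟨Nat.pair (L + j) v, ?_, rfl⟩
      rw [Nat.unpair_pair]
      show wd L N (cor N c) r (L + j) ≠ v
      rw [wd_in hwin]
      have e1 : L + (j : ℕ) - L = j := by omega
      rw [e1]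
      unfold cor
      rw [dif_pos hjN]
      show (if c j then 1 else 0) ≠ v
      simp only [v]
      cases c j <;> simp
    have h1 := ((hr (cor N c) (hcor c)).2.2.2 x0).2 hx0
    obtain ⟨e, he, hD⟩ := h1
    have h2 : ∀ y ∈ D e, ∀ᶠ m in atTop, y ∈ op Φ (T (wd L N (far N j v m) r)) := by
      intro y hy
      have hy1 := hD hy
      have hy2 := (hr (cor N c) (hcor c)).2.2.1 y hy1
      obtain ⟨b, hb1, hb2⟩ := hcon ⟨y.unpair.1, hy2⟩ y.unpair.2 (by
        show Nat.pair y.unpair.1 y.unpair.2 ∈ op Φ (T (wd L N (cor N c) r))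
        rw [Nat.pair_unpair]
        exact hy1)
      have hb3 : y ∈ op Φ (T (wd L N (cor N b) r)) := by
        have : Nat.pair y.unpair.1 y.unpair.2 ∈ op Φ (T (wd L N (cor N b) r)) := hb2
        rw [Nat.pair_unpair] at this
        exact this
      refine ev_op (j := j) ?_ hb3
      simp only [v]
      revert hb1
      cases b j <;> cases c j <;> simp
    have h3 : ∀ᶠ m in atTop, ∀ y ∈ D e, y ∈ op Φ (T (wd L N (far N j v m) r)) :=
      (eventually_all_finite (finite_D e)).2 h2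
    obtain ⟨m, hm⟩ := h3.exists
    have h4 : x0 ∈ op Ψ (op Φ (T (wd L N (far N j v m) r))) := ⟨e, he, hm⟩
    have h5 := ((hr (far N j v m) (hfar j v m)).2.2.2 x0).1 h4
    rw [mem_T_iff] at h5
    rcases h5 with ⟨z, hz, hzx⟩ | ⟨z, _, hzx⟩
    · have hz' : z = Nat.pair (L + j) v := by
        have : 2 * Nat.pair (L + j) v = 2 * z := hzx
        omega
      rw [hz', Nat.unpair_pair] at hz
      apply hz
      show wd L N (far N j v m) r (L + j) = v
      rw [wd_in hwin]
      have e1 : L + (j : ℕ) - L = j := by omega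
      rw [e1]
      unfold far
      rw [if_pos hjN, if_pos rfl]
    · have : 2 * Nat.pair (L + j) v = 2 * z + 1 := hzx
      omega

/-! ### assembling -/

theorem chain_CGraph {f : ℕ → ℕ} {s t : ℕ} (hs : s ∈ CGraph f) (ht : t ∈ CGraph f) :
    lst s <+: lst t ∨ lst t <+: lst s := by
  have key : ∀ s t, s ∈ CGraph f → t ∈ CGraph f → (lst s).length ≤ (lst t).length →
      lst s <+: lst t := by
    intro s t hs ht hle
    rw [List.prefix_iff_eq_take]
    refine List.ext_getElem (by simp [hle]) ?_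
    intro i h1 h2
    rw [List.getElem_take]
    exact (hs i h1).trans (ht i (lt_of_lt_of_le h1 hle)).symm
  rcases le_total (lst s).length (lst t).length with h | h
  · exact Or.inl (key s t hs ht h)
  · exact Or.inr (key t s ht hs h)

theorem prefix_CGraph {f : ℕ → ℕ} {s t : ℕ} (hts : lst t <+: lst s) (hs : s ∈ CGraph f) :
    t ∈ CGraph f := by
  intro i h
  have h1 : i < (lst s).length := lt_of_lt_of_le h hts.length_le
  exact (hts.getElem h).trans (hs i h1)

theorem mem_SS_of {n : ℕ} {g : ℕ → ℕ} {f : ℕ → ℕ → ℕ} (h : EEquiv (T g) (cylJoin n f)) :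
    ∃ c d : Code, g ∈ SS n (W c) (W d) := by
  obtain ⟨⟨Ψ, hΨ1, hΨ2⟩, ⟨Φ, hΦ1, hΦ2⟩⟩ := h
  obtain ⟨d, hd⟩ := Pool.Agent.Helper743.re_code hΨ1
  obtain ⟨c, hc⟩ := Pool.Agent.Helper743.re_code hΦ1
  have eW : W d = Ψ := by ext x; exact (hd x).symm
  have eW' : W c = Φ := by ext x; exact (hc x).symm
  refine ⟨c, d, ?_⟩
  rw [eW, eW']
  have e1 : op Φ (T g) = cylJoin n f := by
    ext z; exact (hΦ2 z).symm
  have e2 : ∀ z, z ∈ op Ψ (cylJoin n f) ↔ z ∈ T g := fun z => (hΨ2 z).symm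
  have e3 : ∀ i, i < n → ∀ s, Nat.pair i s ∉ cylJoin n f → s ∈ CGraph (f i) := by
    intro i hi s hs
    by_contra hns
    apply hs
    unfold cylJoin
    rw [Set.mem_ofPred_eq, Nat.unpair_pair]
    exact ⟨hi, hns⟩
  have e4 : ∀ i, i < n → ∀ s, s ∈ CGraph (f i) → Nat.pair i s ∉ cylJoin n f := by
    intro i hi s hs hmem
    unfold cylJoin at hmem
    rw [Set.mem_ofPred_eq, Nat.unpair_pair] at hmem
    exact hmem.2 hs
  unfold SS
  rw [Set.mem_ofPred_eq, e1]
  refine ⟨fun i hi s t hs ht => chain_CGraph (e3 i hi s hs) (e3 i hi t ht),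
    fun i hi s t hts hs => e4 i hi t (prefix_CGraph hts (e3 i hi s hs)), fun z hz => hz.1, e2⟩

theorem ERed_refl (A : Set ℕ) : ERed A A := by
  have h1 : PrimrecPred fun z : ℕ => z.unpair.2 = Encodable.encode [z.unpair.1] := by
    have a1 : Primrec fun z : ℕ => z.unpair.1 := Primrec.fst.comp Primrec.unpair
    have a2 : Primrec fun z : ℕ => z.unpair.2 := Primrec.snd.comp Primrec.unpair
    have a3 : Primrec fun z : ℕ => [z.unpair.1] := Primrec.list_cons.comp a1 (Primrec.const [])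
    exact Primrec.eq.comp a2 (Primrec.encode.comp a3)
  have h2 : ∀ n, D (Encodable.encode [n]) = {n} := by
    intro n
    ext x
    unfold D
    rw [Set.mem_ofPred_eq, Denumerable.ofNat_encode]
    simp
  refine ⟨{z | z.unpair.2 = Encodable.encode [z.unpair.1]}, ?_, ?_⟩
  · obtain ⟨_, h3⟩ := h1
    exact (Computable.computablePred h3.to_comp).to_re
  · intro n
    constructor
    · intro hn
      refine ⟨Encodable.encode [n], ?_, ?_⟩
      · show (Nat.pair n (Encodable.encode [n])).unpair.2 = _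
        rw [Nat.unpair_pair]
      · rw [h2]; exact Set.singleton_subset_iff.2 hn
    · rintro ⟨e, he, hD⟩
      have he' : (Nat.pair n e).unpair.2 = Encodable.encode [(Nat.pair n e).unpair.1] := he
      rw [Nat.unpair_pair] at he'
      have he'' : e = Encodable.encode [n] := he'
      rw [he'', h2] at hD
      exact Set.singleton_subset_iff.1 hD

/-- **Main theorem.** There is a telograph-cototal e-degree that is not `n`-cylinder-cototal for
any `n ≥ 1`. -/
theorem result : ∃ A : Set ℕ, TelographCototal A ∧ ∀ n : ℕ, 1 ≤ n → ¬ CylinderCototal n A := by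
  by_contra hcon
  push Not at hcon
  have hcov : ∀ g : ℕ → ℕ, ∃ i : {n : ℕ // 1 ≤ n} × Code × Code, g ∈ SS i.1 (W i.2.1) (W i.2.2) := by
    intro g
    obtain ⟨n, hn, f, hf⟩ := hcon (T g) ⟨g, 2, ERed_refl _, ERed_refl _⟩
    obtain ⟨c, d, hcd⟩ := mem_SS_of hf
    exact ⟨⟨⟨n, hn⟩, c, d⟩, hcd⟩
  obtain ⟨⟨⟨n, hn⟩, c, d⟩, L, hL⟩ := exists_variants
    (fun i : {n : ℕ // 1 ≤ n} × Code × Code => SS i.1 (W i.2.1) (W i.2.2))
    (fun i => bm_SS _ _ _) hcov
  obtain ⟨r, hr⟩ := hL (n * (n + 1))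
  have h1 : n < 2 ^ (n + 1) := lt_trans (Nat.lt_succ_self n) Nat.lt_two_pow_self
  exact window (K := n + 1) h1 (by omega) hn hr

end Pool.Agent.Results.MP_2b9a36_lc.TelographNotCylinder
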